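import Mathlib

/-!
Multigraphs, unique shortest paths, the parade number, the spectator number, minors and the
spectator floor.
-/

namespace Pool.Agent.X224.SP

/-- A multigraph without loops on a finite nonempty set `V` of vertices (named by natural numbers);
`m x y` is the number of edges joining `x` and `y`. -/
structure MGraph where
  V : Finset ℕ
  m : ℕ → ℕ → ℕ
  nonempty : V.Nonempty
  symm : ∀ x y, m x y = m y x
  loopless : ∀ x, m x x = 0
  supp : ∀ x y, m x y ≠ 0 → x ∈ V

/-- `p 0, ..., p k` are the vertices and `e 0, ..., e (k-1)` the edges of a path of order `k + 1`: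
the vertices are distinct and `e i` is one of the `m (p i) (p (i+1))` parallel edges joining `p i`
and `p (i+1)`. -/
def IsPath (G : MGraph) (k : ℕ) (p e : ℕ → ℕ) : Prop :=
  (∀ i ≤ k, p i ∈ G.V) ∧ (∀ i ≤ k, ∀ j ≤ k, p i = p j → i = j) ∧
    ∀ i < k, e i < G.m (p i) (p (i + 1))

/-- The path `(p, e)` of order `k + 1` is a unique shortest path: no path with the same ends has
smaller order, and every path with the same ends and the same order has the same vertices and the
same edges. -/
def IsUSP (G : MGraph) (k : ℕ) (p e : ℕ → ℕ) : Prop :=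
  IsPath G k p e ∧ ∀ (k' : ℕ) (p' e' : ℕ → ℕ), IsPath G k' p' e' → p' 0 = p 0 → p' k' = p k →
    k ≤ k' ∧ (k' = k → (∀ i ≤ k, p' i = p i) ∧ ∀ i < k, e' i = e i)

/-- the parade number: the largest order of a unique shortest path -/
noncomputable def usp (G : MGraph) : ℕ := sSup {n | ∃ k p e, IsUSP G k p e ∧ n = k + 1}

/-- the spectator number -/
noncomputable def sp (G : MGraph) : ℕ := G.V.card - usp G

/-- `F` is a supergraph of `G`: it is obtained from `G` by adding edges. -/
def Super (G F : MGraph) : Prop := F.V = G.V ∧ ∀ x y, G.m x y ≤ F.m x y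

/-- `G` arises from `H` by deleting the isolated vertex `v`. -/
def DelVertex (H G : MGraph) (v : ℕ) : Prop :=
  v ∈ H.V ∧ (∀ y, H.m v y = 0) ∧ G.V = H.V.erase v ∧ ∀ x y, G.m x y = H.m x y

/-- `G` arises from `H` by deleting one edge joining `u` and `v`. -/
def DelEdge (H G : MGraph) (u v : ℕ) : Prop :=
  0 < H.m u v ∧ G.V = H.V ∧
    ∀ x y, G.m x y = if (x = u ∧ y = v) ∨ (x = v ∧ y = u) then H.m x y - 1 else H.m x y

/-- the edge numbers after identifying `v` with `u` (the new vertex is called `u`) -/
def conM (m : ℕ → ℕ → ℕ) (u v x y : ℕ) : ℕ :=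
  if x = v ∨ y = v ∨ x = y then 0
  else if x = u then m u y + m v y
  else if y = u then m x u + m x v
  else m x y

/-- `G` arises from `H` by contracting the edge `uv`, which has no edge parallel to it. -/
def Contract (H G : MGraph) (u v : ℕ) : Prop :=
  H.m u v = 1 ∧ G.V = H.V.erase v ∧ ∀ x y, G.m x y = conM H.m u v x y

/-- one minor operation -/
def Step (H G : MGraph) : Prop :=
  (∃ v, DelVertex H G v) ∨ (∃ u v, DelEdge H G u v) ∨ ∃ u v, Contract H G u v

/-- `G` and `G'` are isomorphic (through a permutation of the names of vertices). -/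
def Iso (G G' : MGraph) : Prop :=
  ∃ σ : Equiv.Perm ℕ, (∀ x, x ∈ G.V ↔ σ x ∈ G'.V) ∧ ∀ x y, G.m x y = G'.m (σ x) (σ y)

/-- `G` is a minor of `H`: a graph isomorphic to `G` arises from `H` by minor operations. -/
def IsMinor (G H : MGraph) : Prop := ∃ G₀, Relation.ReflTransGen Step H G₀ ∧ Iso G₀ G

/-- the spectator floor -/
noncomputable def sf (G : MGraph) : ℕ := sInf {s | ∃ H, IsMinor G H ∧ s = sp H}

/-! ### certificates -/

/-- A certificate for a unique shortest path with vertex set `S`. -/
structure Cert (V : Finset ℕ) (m : ℕ → ℕ → ℕ) (S : Finset ℕ) (g : ℕ → ℤ) : Prop where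
  sub : S ⊆ V
  inj : ∀ x ∈ S, ∀ y ∈ S, g x = g y → x = y
  conn : ∀ x ∈ S, ∀ y ∈ S, ∀ t, g x ≤ t → t ≤ g y → ∃ z ∈ S, g z = t
  edge : ∀ x ∈ S, ∀ y ∈ S, g y = g x + 1 → m x y = 1
  lip : ∀ x y, m x y ≠ 0 → g y ≤ g x + 1
  off : ∀ x y, x ∉ S → y ∈ S → m x y ≠ 0 → g x ≤ g y

/-- collapse of `c - 1` and `c` -/
def phi (c t : ℤ) : ℤ := if t < c then t else t - 1

/-- add an edge between the vertices of `S` with potentials `c - 1` and `c + 1` -/
def addM (m : ℕ → ℕ → ℕ) (S : Finset ℕ) (g : ℕ → ℤ) (c : ℤ) (x y : ℕ) : ℕ :=
  m x y + if x ∈ S ∧ y ∈ S ∧ ((g x = c - 1 ∧ g y = c + 1) ∨ (g x = c + 1 ∧ g y = c - 1))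
    then 1 else 0

section
variable {V S : Finset ℕ} {m : ℕ → ℕ → ℕ} {g : ℕ → ℤ}

theorem Cert.skip (h : Cert V m S g) (hs : ∀ x y, m x y = m y x) (c : ℤ) :
    Cert V (addM m S g c) (S.filter fun x => g x ≠ c) fun x => phi c (g x) := by
  have lip2 : ∀ x y, m x y ≠ 0 → g x ≤ g y + 1 := fun x y hxy => h.lip y x (by rwa [← hs])
  refine ⟨(Finset.filter_subset _ _).trans h.sub, ?_, ?_, ?_, ?_, ?_⟩
  · intro x hx y hy hxy
    rw [Finset.mem_filter] at hx hy
    refine h.inj x hx.1 y hy.1 ?_
    have h1 := hx.2
    have h2 := hy.2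
    unfold phi at hxy
    split_ifs at hxy <;> omega
  · intro x hx y hy t h1 h2
    rw [Finset.mem_filter] at hx hy
    have h3 := hx.2
    have h4 := hy.2
    by_cases ht : t < c
    · obtain ⟨z, hz, hzt⟩ := h.conn x hx.1 y hy.1 t (by unfold phi at h1; split_ifs at h1 <;> omega)
        (by unfold phi at h2; split_ifs at h2 <;> omega)
      refine ⟨z, Finset.mem_filter.2 ⟨hz, by omega⟩, ?_⟩
      change phi c (g z) = t
      rw [hzt]
      unfold phi
      rw [if_pos ht]
    · obtain ⟨z, hz, hzt⟩ := h.conn x hx.1 y hy.1 (t + 1)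
        (by unfold phi at h1; split_ifs at h1 <;> omega)
        (by unfold phi at h2; split_ifs at h2 <;> omega)
      refine ⟨z, Finset.mem_filter.2 ⟨hz, by omega⟩, ?_⟩
      change phi c (g z) = t
      rw [hzt]
      unfold phi
      rw [if_neg (by omega)]
      omega
  · intro x hx y hy hxy
    rw [Finset.mem_filter] at hx hy
    have h3 := hx.2
    have h4 := hy.2
    unfold addM
    by_cases h5 : g y = g x + 1
    · rw [h.edge x hx.1 y hy.1 h5, if_neg]
      rintro ⟨-, -, h6 | h6⟩ <;> omega
    · have h6 : g x = c - 1 ∧ g y = c + 1 := by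
        unfold phi at hxy
        split_ifs at hxy <;> omega
      rw [if_pos ⟨hx.1, hy.1, Or.inl h6⟩]
      have : m x y = 0 := by
        by_contra hc
        have := h.lip x y hc
        omega
      omega
  · intro x y hxy
    unfold addM at hxy
    split_ifs at hxy with h5
    · obtain ⟨-, -, h6 | h6⟩ := h5
      · unfold phi
        split_ifs <;> omega
      · unfold phi
        split_ifs <;> omega
    · have := h.lip x y (by omega)
      unfold phi
      split_ifs <;> omega
  · intro x y hx hy hxy
    rw [Finset.mem_filter] at hx hy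
    have h4 := hy.2
    have h5 : m x y ≠ 0 := by
      unfold addM at hxy
      split_ifs at hxy with h6
      · exfalso
        apply hx
        refine ⟨h6.1, ?_⟩
        obtain ⟨-, -, h7 | h7⟩ := h6 <;> omega
      · omega
    have h6 := h.lip x y h5
    have h7 := lip2 x y h5
    by_cases hxS : x ∈ S
    · have h8 : g x = c := by
        by_contra hc
        exact hx ⟨hxS, hc⟩
      unfold phi
      split_ifs <;> omega
    · have h8 := h.off x y hxS hy.1 h5
      unfold phi
      split_ifs <;> omega

theorem addM_symm (hs : ∀ x y, m x y = m y x) (c : ℤ) (x y : ℕ) :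
    addM m S g c x y = addM m S g c y x := by
  unfold addM
  rw [hs x y]
  congr 1
  refine if_congr ?_ rfl rfl
  constructor
  · rintro ⟨h1, h2, h3 | h3⟩
    · exact ⟨h2, h1, Or.inr ⟨h3.2, h3.1⟩⟩
    · exact ⟨h2, h1, Or.inl ⟨h3.2, h3.1⟩⟩
  · rintro ⟨h1, h2, h3 | h3⟩
    · exact ⟨h2, h1, Or.inr ⟨h3.2, h3.1⟩⟩
    · exact ⟨h2, h1, Or.inl ⟨h3.2, h3.1⟩⟩

theorem Cert.card_skip (h : Cert V m S g) (c : ℤ) :
    S.card ≤ (S.filter fun x => g x ≠ c).card + 1 := by
  have h1 := Finset.card_filter_add_card_filter_not (s := S) (fun x => g x ≠ c)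
  have h2 : (S.filter fun x => ¬ g x ≠ c).card ≤ 1 := by
    rw [Finset.card_le_one]
    intro a ha b hb
    rw [Finset.mem_filter] at ha hb
    push Not at ha hb
    exact h.inj a ha.1 b hb.1 (by rw [ha.2, hb.2])
  omega

/-- identification of two vertices with the same potential which are not on the path -/
theorem Cert.quot (h : Cert V m S g) (hs : ∀ x y, m x y = m y x) {u v : ℕ} (hu : u ∉ S)
    (hv : v ∉ S) (huv : g u = g v) : Cert (V.erase v) (conM m u v) S g := by
  have lip2 : ∀ x y, m x y ≠ 0 → g x ≤ g y + 1 := fun x y hxy => h.lip y x (by rwa [← hs])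
  refine ⟨?_, h.inj, h.conn, ?_, ?_, ?_⟩
  · intro x hx
    refine Finset.mem_erase.2 ⟨?_, h.sub hx⟩
    rintro rfl
    exact hv hx
  · intro x hx y hy hxy
    unfold conM
    have h1 : x ≠ v := fun e => hv (e ▸ hx)
    have h2 : y ≠ v := fun e => hv (e ▸ hy)
    have h3 : x ≠ u := fun e => hu (e ▸ hx)
    have h4 : y ≠ u := fun e => hu (e ▸ hy)
    have h5 : x ≠ y := by
      rintro rfl
      omega
    rw [if_neg (by tauto), if_neg h3, if_neg h4]
    exact h.edge x hx y hy hxy
  · intro x y hxy
    unfold conM at hxy
    split_ifs at hxy with h1 h2 h3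
    · exact absurd rfl hxy
    · subst h2
      by_cases h4 : m x y = 0
      · have := h.lip v y (by omega)
        omega
      · exact h.lip x y h4
    · subst h3
      by_cases h4 : m x y = 0
      · have := h.lip x v (by omega)
        omega
      · exact h.lip x y h4
    · exact h.lip x y hxy
  · intro x y hx hy hxy
    unfold conM at hxy
    split_ifs at hxy with h1 h2 h3
    · exact absurd rfl hxy
    · subst h2
      by_cases h4 : m x y = 0
      · have := h.off v y hv hy (by omega)
        omega
      · exact h.off x y hx hy h4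
    · subst h3
      exact absurd hy hu
    · exact h.off x y hx hy hxy

/-- contraction of an edge of the path -/
theorem Cert.contract (h : Cert V m S g) (hs : ∀ x y, m x y = m y x) {u v : ℕ} (hu : u ∈ S)
    (hv : v ∈ S) (hne : u ≠ v) (huv : m u v ≠ 0) :
    Cert (V.erase v) (conM m u v) (S.erase v) fun x => phi (max (g u) (g v)) (g x) := by
  have lip2 : ∀ x y, m x y ≠ 0 → g x ≤ g y + 1 := fun x y hxy => h.lip y x (by rwa [← hs])
  have hgne : g u ≠ g v := fun e => hne (h.inj u hu v hv e)
  set c := max (g u) (g v) with hc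
  have hcase : (g u = c ∧ g v = c - 1) ∨ (g v = c ∧ g u = c - 1) := by
    have h1 := h.lip u v huv
    have h2 := lip2 u v huv
    rcases le_total (g u) (g v) with h3 | h3
    · rw [max_eq_right h3] at hc
      right; omega
    · rw [max_eq_left h3] at hc
      left; omega
  have hval : ∀ x ∈ S, x ≠ u → x ≠ v → g x < c - 1 ∨ c < g x := by
    intro x hx h1 h2
    have h3 : g x ≠ g u := fun e => h1 (h.inj x hx u hu e)
    have h4 : g x ≠ g v := fun e => h2 (h.inj x hx v hv e)
    omega
  have hpu : phi c (g u) = c - 1 := by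
    unfold phi
    split_ifs <;> omega
  have hpv : phi c (g v) = c - 1 := by
    unfold phi
    split_ifs <;> omega
  refine ⟨?_, ?_, ?_, ?_, ?_, ?_⟩
  · intro x hx
    rw [Finset.mem_erase] at hx ⊢
    exact ⟨hx.1, h.sub hx.2⟩
  · intro x hx y hy hxy
    rw [Finset.mem_erase] at hx hy
    change phi c (g x) = phi c (g y) at hxy
    by_cases h1 : x = u
    · by_cases h2 : y = u
      · rw [h1, h2]
      · have h3 := hval y hy.2 h2 hy.1
        rw [h1, hpu] at hxy
        unfold phi at hxy
        split_ifs at hxy <;> omega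
    · have h3 := hval x hx.2 h1 hx.1
      by_cases h2 : y = u
      · rw [h2, hpu] at hxy
        unfold phi at hxy
        split_ifs at hxy <;> omega
      · have h4 := hval y hy.2 h2 hy.1
        refine h.inj x hx.2 y hy.2 ?_
        unfold phi at hxy
        split_ifs at hxy <;> omega
  · intro x hx y hy t h1 h2
    rw [Finset.mem_erase] at hx hy
    change phi c (g x) ≤ t at h1
    change t ≤ phi c (g y) at h2
    change ∃ z ∈ S.erase v, phi c (g z) = t
    rcases lt_trichotomy t (c - 1) with ht | ht | ht
    · obtain ⟨z, hz, hzt⟩ := h.conn x hx.2 y hy.2 t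
        (by unfold phi at h1; split_ifs at h1 <;> omega)
        (by unfold phi at h2; split_ifs at h2 <;> omega)
      refine ⟨z, Finset.mem_erase.2 ⟨?_, hz⟩, ?_⟩
      · rintro rfl
        omega
      · rw [hzt]
        unfold phi
        rw [if_pos (by omega)]
    · exact ⟨u, Finset.mem_erase.2 ⟨hne, hu⟩, by rw [hpu, ht]⟩
    · obtain ⟨z, hz, hzt⟩ := h.conn x hx.2 y hy.2 (t + 1)
        (by unfold phi at h1; split_ifs at h1 <;> omega)
        (by unfold phi at h2; split_ifs at h2 <;> omega)
      refine ⟨z, Finset.mem_erase.2 ⟨?_, hz⟩, ?_⟩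
      · rintro rfl
        omega
      · rw [hzt]
        unfold phi
        rw [if_neg (by omega)]
        omega
  · intro x hx y hy hxy
    rw [Finset.mem_erase] at hx hy
    change phi c (g y) = phi c (g x) + 1 at hxy
    have hxy' : x ≠ y := by
      rintro rfl
      omega
    unfold conM
    rw [if_neg (by tauto)]
    by_cases h1 : x = u
    · rw [if_pos h1]
      have h2 : y ≠ u := fun e => hxy' (by rw [h1, e])
      have h3 := hval y hy.2 h2 hy.1
      rw [h1, hpu] at hxy
      have h4 : g y = c + 1 := by
        unfold phi at hxy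
        split_ifs at hxy <;> omega
      rcases hcase with h5 | h5
      · have e1 : m u y = 1 := h.edge u hu y hy.2 (by omega)
        have e2 : m v y = 0 := by
          by_contra hcon
          have := h.lip v y hcon
          omega
        omega
      · have e1 : m v y = 1 := h.edge v hv y hy.2 (by omega)
        have e2 : m u y = 0 := by
          by_contra hcon
          have := h.lip u y hcon
          omega
        omega
    · rw [if_neg h1]
      have h3 := hval x hx.2 h1 hx.1
      by_cases h2 : y = u
      · rw [if_pos h2]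
        rw [h2, hpu] at hxy
        have h4 : g x = c - 2 := by
          unfold phi at hxy
          split_ifs at hxy <;> omega
        rcases hcase with h5 | h5
        · have e1 : m x v = 1 := h.edge x hx.2 v hv (by omega)
          have e2 : m x u = 0 := by
            by_contra hcon
            have := h.lip x u hcon
            omega
          omega
        · have e1 : m x u = 1 := h.edge x hx.2 u hu (by omega)
          have e2 : m x v = 0 := by
            by_contra hcon
            have := h.lip x v hcon
            omega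
          omega
      · rw [if_neg h2]
        have h4 := hval y hy.2 h2 hy.1
        refine h.edge x hx.2 y hy.2 ?_
        unfold phi at hxy
        split_ifs at hxy <;> omega
  · intro x y hxy
    change phi c (g y) ≤ phi c (g x) + 1
    unfold conM at hxy
    split_ifs at hxy with h1 h2 h3
    · exact absurd rfl hxy
    · rw [h2, hpu]
      rcases Nat.eq_zero_or_pos (m u y) with h4 | h4
      · have := h.lip v y (by omega)
        unfold phi
        split_ifs <;> omega
      · have := h.lip u y (by omega)
        unfold phi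
        split_ifs <;> omega
    · rw [h3, hpu]
      rcases Nat.eq_zero_or_pos (m x u) with h4 | h4
      · have := h.lip x v (by omega)
        unfold phi
        split_ifs <;> omega
      · have := h.lip x u (by omega)
        unfold phi
        split_ifs <;> omega
    · have := h.lip x y hxy
      unfold phi
      split_ifs <;> omega
  · intro x y hx hy hxy
    change phi c (g x) ≤ phi c (g y)
    rw [Finset.mem_erase] at hy
    unfold conM at hxy
    split_ifs at hxy with h1 h2 h3
    · exact absurd rfl hxy
    · exfalso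
      apply hx
      rw [h2]
      exact Finset.mem_erase.2 ⟨hne, hu⟩
    · rw [h3, hpu]
      have hxS : x ∉ S := by
        intro e
        exact hx (Finset.mem_erase.2 ⟨by tauto, e⟩)
      rcases Nat.eq_zero_or_pos (m x u) with h4 | h4
      · have := h.off x v hxS hv (by omega)
        unfold phi
        split_ifs <;> omega
      · have := h.off x u hxS hu (by omega)
        unfold phi
        split_ifs <;> omega
    · have hxS : x ∉ S := by
        intro e
        exact hx (Finset.mem_erase.2 ⟨by tauto, e⟩)
      have := h.off x y hxS hy.2 hxy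
      unfold phi
      split_ifs <;> omega

end

end Pool.Agent.X224.SP
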