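import Pool.Agent.X224.SP.Path

/-!
Minor operations and certificates; interpolation.
-/

namespace Pool.Agent.X224.SP

theorem usp_bound (G : MGraph) : ∀ n ∈ {n | ∃ k p e, IsUSP G k p e ∧ n = k + 1}, n ≤ G.V.card := by
  rintro n ⟨k, p, e, h, rfl⟩
  have h1 : ((Finset.range (k + 1)).image p).card = k + 1 := by
    rw [Finset.card_image_of_injOn, Finset.card_range]
    intro a ha b hb hab
    simp only [Finset.coe_range, Set.mem_Iio] at ha hb
    exact h.1.2.1 a (by omega) b (by omega) hab
  rw [← h1]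
  refine Finset.card_le_card ?_
  intro x hx
  rw [Finset.mem_image] at hx
  obtain ⟨i, hi, rfl⟩ := hx
  rw [Finset.mem_range] at hi
  exact h.1.1 i (by omega)

theorem usp_bddAbove (G : MGraph) : BddAbove {n | ∃ k p e, IsUSP G k p e ∧ n = k + 1} :=
  ⟨_, usp_bound G⟩

theorem usp_single (G : MGraph) : ∃ p e, IsUSP G 0 p e := by
  obtain ⟨x, hx⟩ := G.nonempty
  refine ⟨fun _ => x, fun _ => 0, ⟨fun _ _ => hx, fun i hi j hj _ => by omega,
    fun i hi => absurd hi (Nat.not_lt_zero _)⟩, ?_⟩
  intro k' p' e' hp h0 hk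
  have h1 : (0 : ℕ) = k' := hp.2.1 0 (Nat.zero_le _) k' le_rfl (h0.trans hk.symm)
  refine ⟨Nat.zero_le _, fun _ => ⟨fun i hi => ?_, fun i hi => absurd hi (Nat.not_lt_zero _)⟩⟩
  rw [show i = 0 by omega]
  exact h0

theorem usp_mem (G : MGraph) : ∃ k p e, IsUSP G k p e ∧ usp G = k + 1 := by
  have h := Nat.sSup_mem (s := {n | ∃ k p e, IsUSP G k p e ∧ n = k + 1})
    (by obtain ⟨p, e, h⟩ := usp_single G; exact ⟨1, 0, p, e, h, rfl⟩) (usp_bddAbove G)
  exact h

theorem le_usp {G : MGraph} {k : ℕ} {p e : ℕ → ℕ} (h : IsUSP G k p e) : k + 1 ≤ usp G :=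
  le_csSup (usp_bddAbove G) ⟨k, p, e, h, rfl⟩

theorem usp_le_card (G : MGraph) : usp G ≤ G.V.card := by
  obtain ⟨k, p, e, h, h2⟩ := usp_mem G
  exact usp_bound G _ ⟨k, p, e, h, h2⟩

theorem one_le_usp (G : MGraph) : 1 ≤ usp G := by
  obtain ⟨p, e, h⟩ := usp_single G
  exact le_usp h

/-- the graph has a certificate missing at most `s` vertices -/
def Good (G : MGraph) (s : ℕ) : Prop :=
  ∃ (S : Finset ℕ) (g : ℕ → ℤ), Cert G.V G.m S g ∧ G.V.card ≤ S.card + s

theorem good_sp (G : MGraph) : Good G (sp G) := by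
  obtain ⟨k, p, e, h, h2⟩ := usp_mem G
  obtain ⟨S, g, hc, hk⟩ := cert_of_usp h
  refine ⟨S, g, hc, ?_⟩
  unfold sp
  have := usp_le_card G
  omega

/-- deletion of the edges at `v` -/
def delM (m : ℕ → ℕ → ℕ) (v x y : ℕ) : ℕ := if x = v ∨ y = v then 0 else m x y

theorem Cert.del {V S : Finset ℕ} {m : ℕ → ℕ → ℕ} {g : ℕ → ℤ} (h : Cert V m S g) {v : ℕ}
    (hv : v ∉ S) : Cert (V.erase v) (delM m v) S g := by
  refine ⟨?_, h.inj, h.conn, ?_, ?_, ?_⟩
  · intro x hx
    refine Finset.mem_erase.2 ⟨?_, h.sub hx⟩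
    rintro rfl
    exact hv hx
  · intro x hx y hy hxy
    unfold delM
    have h1 : x ≠ v := fun e => hv (e ▸ hx)
    have h2 : y ≠ v := fun e => hv (e ▸ hy)
    rw [if_neg (by tauto)]
    exact h.edge x hx y hy hxy
  · intro x y hxy
    unfold delM at hxy
    split_ifs at hxy
    · exact absurd rfl hxy
    · exact h.lip x y hxy
  · intro x y hx hy hxy
    unfold delM at hxy
    split_ifs at hxy
    · exact absurd rfl hxy
    · exact h.off x y hx hy hxy

/-- The graph with an additional edge. -/
def addG (G : MGraph) (S : Finset ℕ) (hS : S ⊆ G.V) (g : ℕ → ℤ) (c : ℤ) : MGraph where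
  V := G.V
  m := addM G.m S g c
  nonempty := G.nonempty
  symm := addM_symm G.symm c
  loopless x := by
    unfold addM
    rw [G.loopless, if_neg]
    rintro ⟨-, -, h | h⟩ <;> omega
  supp x y h := by
    unfold addM at h
    split_ifs at h with h1
    · exact hS h1.1
    · exact G.supp x y (by omega)

theorem addG_super (G : MGraph) (S : Finset ℕ) (hS : S ⊆ G.V) (g : ℕ → ℤ) (c : ℤ) (x y : ℕ) :
    G.m x y ≤ (addG G S hS g c).m x y := Nat.le_add_right _ _

/-- The graph without the vertex `v`. -/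
def delG (G : MGraph) (v : ℕ) (h : (G.V.erase v).Nonempty) : MGraph where
  V := G.V.erase v
  m := delM G.m v
  nonempty := h
  symm x y := by
    unfold delM
    rw [G.symm x y]
    exact if_congr (by tauto) rfl rfl
  loopless x := by
    unfold delM
    split_ifs
    · rfl
    · exact G.loopless x
  supp x y h := by
    unfold delM at h
    split_ifs at h with h1
    · exact absurd rfl h
    · exact Finset.mem_erase.2 ⟨by tauto, G.supp x y h⟩

theorem conM_symm {m : ℕ → ℕ → ℕ} (hs : ∀ x y, m x y = m y x) (u v x y : ℕ) :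
    conM m u v x y = conM m u v y x := by
  unfold conM
  have hiff : (y = v ∨ x = v ∨ y = x) ↔ (x = v ∨ y = v ∨ x = y) := by
    constructor
    · rintro (h | h | h)
      · exact Or.inr (Or.inl h)
      · exact Or.inl h
      · exact Or.inr (Or.inr h.symm)
    · rintro (h | h | h)
      · exact Or.inr (Or.inl h)
      · exact Or.inl h
      · exact Or.inr (Or.inr h.symm)
  by_cases h1 : x = v ∨ y = v ∨ x = y
  · rw [if_pos h1, if_pos (hiff.2 h1)]
  · rw [if_neg h1, if_neg (fun h => h1 (hiff.1 h))]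
    by_cases h2 : x = u
    · have h3 : y ≠ u := by
        intro h
        exact h1 (Or.inr (Or.inr (h2.trans h.symm)))
      rw [if_pos h2, if_neg h3, if_pos h2, hs u y, hs v y]
    · by_cases h3 : y = u
      · rw [if_neg h2, if_pos h3, if_pos h3, hs x u, hs x v]
      · rw [if_neg h2, if_neg h3, if_neg h3, if_neg h2, hs x y]

theorem conM_mono {m m' : ℕ → ℕ → ℕ} (h : ∀ x y, m x y ≤ m' x y) (u v x y : ℕ) :
    conM m u v x y ≤ conM m' u v x y := by
  unfold conM
  split_ifs
  · exact le_rfl
  · exact add_le_add (h _ _) (h _ _)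
  · exact add_le_add (h _ _) (h _ _)
  · exact h _ _

/-- The graph with `v` identified with `u`. -/
def conG (G : MGraph) (u v : ℕ) (h : G.m u v ≠ 0) : MGraph where
  V := G.V.erase v
  m := conM G.m u v
  nonempty := ⟨u, Finset.mem_erase.2 ⟨fun e => h (by rw [e]; exact G.loopless v), G.supp u v h⟩⟩
  symm := conM_symm G.symm u v
  loopless x := by
    unfold conM
    rw [if_pos (by tauto)]
  supp x y hxy := by
    unfold conM at hxy
    split_ifs at hxy with h1 h2 h3
    · exact absurd rfl hxy
    · rw [h2]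
      exact Finset.mem_erase.2 ⟨fun e => h (by rw [e]; exact G.loopless v), G.supp u v h⟩
    · refine Finset.mem_erase.2 ⟨by tauto, ?_⟩
      by_cases h4 : G.m x u = 0
      · exact G.supp x v (by omega)
      · exact G.supp x u h4
    · exact Finset.mem_erase.2 ⟨by tauto, G.supp x y hxy⟩

theorem step_good {H G H' : MGraph} {s : ℕ} (hst : Step H G) (hsup : Super H H')
    (hg : Good H' s) : ∃ G', Super G G' ∧ Good G' s := by
  obtain ⟨S, g, hc, hcard⟩ := hg
  rcases hst with ⟨v, hv, hiso, hV, hm⟩ | ⟨u, v, hpos, hV, hm⟩ | ⟨u, v, h1, hV, hm⟩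
  · -- deletion of a vertex
    have hsk := hc.skip H'.symm (g v)
    have hvS : v ∉ S.filter fun x => g x ≠ g v := by
      rw [Finset.mem_filter]
      rintro ⟨-, h⟩
      exact h rfl
    have hne : ((addG H' S hc.sub g (g v)).V.erase v).Nonempty := by
      change (H'.V.erase v).Nonempty
      rw [hsup.1, ← hV]
      exact G.nonempty
    refine ⟨delG (addG H' S hc.sub g (g v)) v hne, ⟨?_, ?_⟩, _, _, hsk.del hvS, ?_⟩
    · change H'.V.erase v = G.V
      rw [hsup.1, ← hV]
    · intro x y
      change G.m x y ≤ delM _ v x y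
      unfold delM
      rw [hm x y]
      split_ifs with h2
      · rcases h2 with h2 | h2
        · rw [h2, hiso]
        · rw [h2, H.symm, hiso]
      · exact (hsup.2 x y).trans (addG_super _ _ _ _ _ _ _)
    · change (H'.V.erase v).card ≤ _
      have h3 := hc.card_skip (g v)
      have h4 : v ∈ H'.V := by rw [hsup.1]; exact hv
      rw [Finset.card_erase_of_mem h4]
      omega
  · -- deletion of an edge
    refine ⟨H', ⟨?_, ?_⟩, S, g, hc, hcard⟩
    · rw [hsup.1, hV]
    · intro x y
      rw [hm x y]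
      have := hsup.2 x y
      split_ifs <;> omega
  · -- contraction
    have hne : u ≠ v := by
      rintro rfl
      rw [H.loopless] at h1
      omega
    have huv : H'.m u v ≠ 0 := by
      have := hsup.2 u v
      omega
    have hvV : v ∈ H'.V := H'.supp v u (by rwa [H'.symm])
    by_cases hboth : u ∈ S ∧ v ∈ S
    · refine ⟨conG H' u v huv, ⟨?_, ?_⟩, _, _, hc.contract H'.symm hboth.1 hboth.2 hne huv, ?_⟩
      · change H'.V.erase v = G.V
        rw [hsup.1, ← hV]
      · intro x y
        rw [hm x y]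
        exact conM_mono hsup.2 u v x y
      · change (H'.V.erase v).card ≤ (S.erase v).card + s
        rw [Finset.card_erase_of_mem hvV, Finset.card_erase_of_mem hboth.2]
        omega
    · set c := max (g u) (g v) with hcd
      have l1 := hc.lip u v huv
      have l2 := hc.lip v u (by rwa [H'.symm])
      have huS : u ∉ S.filter fun x => g x ≠ c := by
        rw [Finset.mem_filter]
        rintro ⟨h2, h3⟩
        have h4 : v ∉ S := fun h => hboth ⟨h2, h⟩
        have h5 := hc.off v u h4 h2 (by rwa [H'.symm])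
        rw [hcd, max_eq_left h5] at h3
        exact h3 rfl
      have hvS : v ∉ S.filter fun x => g x ≠ c := by
        rw [Finset.mem_filter]
        rintro ⟨h2, h3⟩
        have h4 : u ∉ S := fun h => hboth ⟨h, h2⟩
        have h5 := hc.off u v h4 h2 huv
        rw [hcd, max_eq_right h5] at h3
        exact h3 rfl
      have hphi : phi c (g u) = phi c (g v) := by
        unfold phi
        rcases le_total (g u) (g v) with h5 | h5
        · rw [max_eq_right h5] at hcd
          split_ifs <;> omega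
        · rw [max_eq_left h5] at hcd
          split_ifs <;> omega
      have huv' : (addG H' S hc.sub g c).m u v ≠ 0 := by
        have := addG_super H' S hc.sub g c u v
        omega
      refine ⟨conG (addG H' S hc.sub g c) u v huv', ⟨?_, ?_⟩, _, _,
        (hc.skip H'.symm c).quot (addM_symm H'.symm c) huS hvS hphi, ?_⟩
      · change H'.V.erase v = G.V
        rw [hsup.1, ← hV]
      · intro x y
        rw [hm x y]
        exact conM_mono (fun a b => (hsup.2 a b).trans (addG_super _ _ _ _ _ _ _)) u v x y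
      · change (H'.V.erase v).card ≤ _
        have h3 := hc.card_skip c
        rw [Finset.card_erase_of_mem hvV]
        omega

theorem minor_good' {G H : MGraph} (h : Relation.ReflTransGen Step H G) :
    ∃ G', Super G G' ∧ Good G' (sp H) := by
  induction h with
  | refl => exact ⟨H, ⟨rfl, fun _ _ => le_rfl⟩, good_sp H⟩
  | tail _ hst ih =>
    obtain ⟨G', h1, h2⟩ := ih
    exact step_good hst h1 h2

/-- renaming of the vertices -/
def renG (G : MGraph) (σ : Equiv.Perm ℕ) : MGraph where
  V := G.V.map σ.toEmbedding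
  m x y := G.m (σ.symm x) (σ.symm y)
  nonempty := G.nonempty.map
  symm x y := G.symm _ _
  loopless x := G.loopless _
  supp x y h := by
    rw [Finset.mem_map_equiv]
    exact G.supp _ _ h

theorem good_ren {G : MGraph} {s : ℕ} (h : Good G s) (σ : Equiv.Perm ℕ) : Good (renG G σ) s := by
  obtain ⟨S, g, hc, hcard⟩ := h
  refine ⟨S.map σ.toEmbedding, fun x => g (σ.symm x), ⟨?_, ?_, ?_, ?_, ?_, ?_⟩, ?_⟩
  · exact Finset.map_subset_map.2 hc.sub
  · intro x hx y hy hxy
    rw [Finset.mem_map_equiv] at hx hy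
    exact σ.symm.injective (hc.inj _ hx _ hy hxy)
  · intro x hx y hy t h1 h2
    rw [Finset.mem_map_equiv] at hx hy
    obtain ⟨z, hz, hzt⟩ := hc.conn _ hx _ hy t h1 h2
    refine ⟨σ z, ?_, ?_⟩
    · rw [Finset.mem_map_equiv, Equiv.symm_apply_apply]
      exact hz
    · rw [Equiv.symm_apply_apply]
      exact hzt
  · intro x hx y hy hxy
    rw [Finset.mem_map_equiv] at hx hy
    exact hc.edge _ hx _ hy hxy
  · intro x y hxy
    exact hc.lip _ _ hxy
  · intro x y hx hy hxy
    rw [Finset.mem_map_equiv] at hx hy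
    exact hc.off _ _ hx hy hxy
  · change (G.V.map σ.toEmbedding).card ≤ (S.map σ.toEmbedding).card + s
    rw [Finset.card_map, Finset.card_map]
    exact hcard

theorem minor_good {G H : MGraph} (h : IsMinor G H) : ∃ G', Super G G' ∧ Good G' (sp H) := by
  obtain ⟨G₀, h1, σ, hV, hm⟩ := h
  obtain ⟨G', h2, h3⟩ := minor_good' h1
  refine ⟨renG G' σ, ⟨?_, fun x y => ?_⟩, good_ren h3 σ⟩
  · ext x
    change x ∈ G'.V.map σ.toEmbedding ↔ x ∈ G.V
    rw [Finset.mem_map_equiv, h2.1, hV, Equiv.apply_symm_apply]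
  · change G.m x y ≤ G'.m (σ.symm x) (σ.symm y)
    have h4 := h2.2 (σ.symm x) (σ.symm y)
    rwa [hm, Equiv.apply_symm_apply, Equiv.apply_symm_apply] at h4

/-- truncation of a certificate -/
theorem Cert.trunc {V S : Finset ℕ} {m : ℕ → ℕ → ℕ} {g : ℕ → ℤ} (h : Cert V m S g)
    (hs : ∀ x y, m x y = m y x) (b : ℤ) :
    Cert V m (S.filter fun x => g x < b) fun x => min (g x) (b - 1) := by
  have lip2 : ∀ x y, m x y ≠ 0 → g x ≤ g y + 1 := fun x y hxy => h.lip y x (by rwa [← hs])
  refine ⟨(Finset.filter_subset _ _).trans h.sub, ?_, ?_, ?_, ?_, ?_⟩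
  · intro x hx y hy hxy
    rw [Finset.mem_filter] at hx hy
    refine h.inj x hx.1 y hy.1 ?_
    change min (g x) (b - 1) = min (g y) (b - 1) at hxy
    have h1 := hx.2
    have h2 := hy.2
    omega
  · intro x hx y hy t h1 h2
    rw [Finset.mem_filter] at hx hy
    change min (g x) (b - 1) ≤ t at h1
    change t ≤ min (g y) (b - 1) at h2
    have h3 := hx.2
    have h4 := hy.2
    obtain ⟨z, hz, hzt⟩ := h.conn x hx.1 y hy.1 t (by omega) (by omega)
    refine ⟨z, Finset.mem_filter.2 ⟨hz, by omega⟩, ?_⟩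
    change min (g z) (b - 1) = t
    omega
  · intro x hx y hy hxy
    rw [Finset.mem_filter] at hx hy
    change min (g y) (b - 1) = min (g x) (b - 1) + 1 at hxy
    have h1 := hx.2
    have h2 := hy.2
    exact h.edge x hx.1 y hy.1 (by omega)
  · intro x y hxy
    change min (g y) (b - 1) ≤ min (g x) (b - 1) + 1
    have := h.lip x y hxy
    omega
  · intro x y hx hy hxy
    rw [Finset.mem_filter] at hx hy
    change min (g x) (b - 1) ≤ min (g y) (b - 1)
    have h2 := hy.2
    by_cases hxS : x ∈ S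
    · have h3 : b ≤ g x := by
        by_contra hc
        exact hx ⟨hxS, by omega⟩
      have := lip2 x y hxy
      omega
    · have := h.off x y hxS hy.1 hxy
      omega

/-- A certificate contains certificates with any smaller number of vertices. -/
theorem Cert.trunc_card {V S : Finset ℕ} {m : ℕ → ℕ → ℕ} {g : ℕ → ℤ} (h : Cert V m S g)
    (hs : ∀ x y, m x y = m y x) {j : ℕ} (hj : j ≤ S.card) (hj1 : 1 ≤ j) :
    ∃ (S' : Finset ℕ) (g' : ℕ → ℤ), Cert V m S' g' ∧ S'.card = j := by
  have hne : S.Nonempty := by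
    rw [← Finset.card_pos]
    omega
  obtain ⟨x0, hx0, hmin⟩ := S.exists_min_image g hne
  obtain ⟨x1, hx1, hmax⟩ := S.exists_max_image g hne
  have himg : S.image g = Finset.Icc (g x0) (g x1) := by
    ext t
    rw [Finset.mem_image, Finset.mem_Icc]
    constructor
    · rintro ⟨x, hx, rfl⟩
      exact ⟨hmin x hx, hmax x hx⟩
    · rintro ⟨h1, h2⟩
      obtain ⟨z, hz, hzt⟩ := h.conn x0 hx0 x1 hx1 t h1 h2
      exact ⟨z, hz, hzt⟩
  have hcard : (S.card : ℤ) = g x1 + 1 - g x0 := by
    have h1 : (S.image g).card = S.card := Finset.card_image_of_injOn fun x hx y hy hxy =>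
      h.inj x hx y hy hxy
    rw [himg, Int.card_Icc] at h1
    have := hmin x1 hx1
    omega
  refine ⟨_, _, h.trunc hs (g x0 + j), ?_⟩
  have h2 : ((S.filter fun x => g x < g x0 + j).image g) = Finset.Ico (g x0) (g x0 + j) := by
    ext t
    rw [Finset.mem_image, Finset.mem_Ico]
    constructor
    · rintro ⟨x, hx, rfl⟩
      rw [Finset.mem_filter] at hx
      exact ⟨hmin x hx.1, hx.2⟩
    · rintro ⟨h1, h2⟩
      obtain ⟨z, hz, hzt⟩ := h.conn x0 hx0 x1 hx1 t h1 (by omega)
      exact ⟨z, Finset.mem_filter.2 ⟨hz, by omega⟩, hzt⟩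
  have h3 : ((S.filter fun x => g x < g x0 + j).image g).card =
      (S.filter fun x => g x < g x0 + j).card := Finset.card_image_of_injOn fun x hx y hy hxy =>
    h.inj x (Finset.mem_filter.1 hx).1 y (Finset.mem_filter.1 hy).1 hxy
  rw [← h3, h2, Int.card_Ico]
  omega

/-- double the edges which are not contained in `S` -/
def dblG (G : MGraph) (S : Finset ℕ) : MGraph where
  V := G.V
  m x y := if x ∈ S ∧ y ∈ S then G.m x y else 2 * G.m x y
  nonempty := G.nonempty
  symm x y := by
    rw [G.symm x y]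
    exact if_congr (by tauto) rfl rfl
  loopless x := by
    rw [G.loopless]
    split_ifs <;> rfl
  supp x y h := by
    split_ifs at h
    · exact G.supp x y h
    · exact G.supp x y (by omega)

theorem usp_dbl {G : MGraph} {S : Finset ℕ} {g : ℕ → ℤ} (h : Cert G.V G.m S g)
    (hS : 1 ≤ S.card) : usp (dblG G S) = S.card := by
  have hc : Cert (dblG G S).V (dblG G S).m S g := by
    have h0 : ∀ x y, (dblG G S).m x y ≠ 0 → G.m x y ≠ 0 := by
      intro x y hxy h1
      apply hxy
      change (if x ∈ S ∧ y ∈ S then G.m x y else 2 * G.m x y) = 0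
      rw [h1]
      split_ifs <;> rfl
    refine ⟨h.sub, h.inj, h.conn, ?_, fun x y hxy => h.lip x y (h0 x y hxy),
      fun x y hx hy hxy => h.off x y hx hy (h0 x y hxy)⟩
    intro x hx y hy hxy
    change (if x ∈ S ∧ y ∈ S then G.m x y else 2 * G.m x y) = 1
    rw [if_pos ⟨hx, hy⟩]
    exact h.edge x hx y hy hxy
  apply le_antisymm
  · obtain ⟨k, p, e, hu, hk⟩ := usp_mem (dblG G S)
    rw [hk]
    by_cases hk0 : k = 0
    · omega
    · have hmem : ∀ i < k, p i ∈ S ∧ p (i + 1) ∈ S := by
        intro i hi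
        have h1 := usp_mult hu hi
        change (if p i ∈ S ∧ p (i + 1) ∈ S then _ else _) = 1 at h1
        split_ifs at h1 with h2
        · exact h2
        · omega
      have hmem' : ∀ i ≤ k, p i ∈ S := by
        intro i hi
        rcases hi.lt_or_eq with h1 | h1
        · exact (hmem i h1).1
        · have := (hmem (k - 1) (by omega)).2
          rwa [show k - 1 + 1 = i by omega] at this
      have h1 : ((Finset.range (k + 1)).image p).card = k + 1 := by
        rw [Finset.card_image_of_injOn, Finset.card_range]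
        intro a ha b hb hab
        simp only [Finset.coe_range, Set.mem_Iio] at ha hb
        exact hu.1.2.1 a (by omega) b (by omega) hab
      rw [← h1]
      refine Finset.card_le_card ?_
      intro x hx
      rw [Finset.mem_image] at hx
      obtain ⟨i, hi, rfl⟩ := hx
      rw [Finset.mem_range] at hi
      exact hmem' i (by omega)
  · obtain ⟨k, hk⟩ : ∃ k, S.card = k + 1 := ⟨S.card - 1, by omega⟩
    obtain ⟨p, e, hu⟩ := usp_of_cert hc hk
    rw [hk]
    exact le_usp hu

/-- All intermediate values are attained. -/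
theorem intermediate (G : MGraph) (i : ℕ) (h1 : sf G ≤ i) (h2 : i ≤ sp G) :
    ∃ F, Super G F ∧ sp F = i := by
  have hne : {s | ∃ H, IsMinor G H ∧ s = sp H}.Nonempty := ⟨sp G, G, ⟨G, Relation.ReflTransGen.refl,
    Equiv.refl ℕ, fun _ => Iff.rfl, fun _ _ => rfl⟩, rfl⟩
  obtain ⟨H, hH, hs⟩ := Nat.sInf_mem hne
  obtain ⟨G', hG', S, g, hc, hcard⟩ := minor_good hH
  have hs' : sp H = sf G := hs.symm
  have hV : G'.V.card = G.V.card := by rw [hG'.1]
  have h3 := one_le_usp G
  have h4 := usp_le_card G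
  have h5 : sp G = G.V.card - usp G := rfl
  obtain ⟨S', g', hc', hk'⟩ := hc.trunc_card G'.symm (j := G.V.card - i) (by omega) (by omega)
  refine ⟨dblG G' S', ⟨hG'.1, fun x y => ?_⟩, ?_⟩
  · have h6 := hG'.2 x y
    change G.m x y ≤ if x ∈ S' ∧ y ∈ S' then G'.m x y else 2 * G'.m x y
    split_ifs <;> omega
  · have h6 := usp_dbl hc' (by omega)
    change G'.V.card - usp (dblG G' S') = i
    rw [h6, hk', hV]
    omega

end Pool.Agent.X224.SP
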