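import Pool.Agent.X224.SP.Defs

/-!
Unique shortest paths and certificates.
-/

namespace Pool.Agent.X224.SP

/-- a walk of length `k` -/
def IsWalk (m : ℕ → ℕ → ℕ) (k : ℕ) (q : ℕ → ℕ) : Prop := ∀ i < k, m (q i) (q (i + 1)) ≠ 0

/-- A walk contains a path; it gets shorter if the walk is not a path. -/
theorem walk_to_path (G : MGraph) : ∀ (k : ℕ) (q : ℕ → ℕ), (∀ i ≤ k, q i ∈ G.V) →
    IsWalk G.m k q → ∃ (k' : ℕ) (q' : ℕ → ℕ), IsPath G k' q' (fun _ => 0) ∧ q' 0 = q 0 ∧
      q' k' = q k ∧ k' ≤ k ∧ ((∀ i ≤ k, ∀ j ≤ k, q i = q j → i = j) ∨ k' < k) := by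
  intro k
  induction k using Nat.strong_induction_on with
  | _ k ih =>
    intro q hV hq
    by_cases hinj : ∀ i ≤ k, ∀ j ≤ k, q i = q j → i = j
    · exact ⟨k, q, ⟨hV, hinj, fun i hi => Nat.pos_of_ne_zero (hq i hi)⟩, rfl, rfl, le_rfl,
        Or.inl hinj⟩
    · push Not at hinj
      obtain ⟨i, j, hij, hjk, hqij⟩ : ∃ i j, i < j ∧ j ≤ k ∧ q i = q j := by
        obtain ⟨i, hi, j, hj, h1, h2⟩ := hinj
        rcases lt_or_gt_of_ne h2 with h3 | h3
        · exact ⟨i, j, h3, hj, h1⟩
        · exact ⟨j, i, h3, hi, h1.symm⟩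
      let q' : ℕ → ℕ := fun n => if n ≤ i then q n else q (n + (j - i))
      have h1 := ih (k - (j - i)) (by omega) q' (by
        intro n hn
        simp only [q']
        split_ifs
        · exact hV n (by omega)
        · exact hV _ (by omega)) (by
        intro n hn
        simp only [q']
        by_cases h2 : n + 1 ≤ i
        · rw [if_pos (by omega), if_pos h2]
          exact hq n (by omega)
        · by_cases h3 : n ≤ i
          · rw [if_pos h3, if_neg h2]
            have h4 : n = i := by omega
            rw [h4, hqij, show i + 1 + (j - i) = j + 1 by omega]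
            exact hq j (by omega)
          · rw [if_neg h3, if_neg h2, show n + 1 + (j - i) = n + (j - i) + 1 by omega]
            exact hq _ (by omega))
      obtain ⟨k', r, h2, h3, h4, h5, -⟩ := h1
      refine ⟨k', r, h2, ?_, ?_, by omega, Or.inr (by omega)⟩
      · rw [h3]
        simp only [q']
        rw [if_pos (Nat.zero_le _)]
      · rw [h4]
        simp only [q']
        by_cases h6 : k - (j - i) ≤ i
        · rw [if_pos h6, show k - (j - i) = i by omega, hqij, show k = j by omega]
        · rw [if_neg h6, show k - (j - i) + (j - i) = k by omega]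

/-- A walk between the ends of a unique shortest path which is not longer is the path. -/
theorem usp_walk {G : MGraph} {k : ℕ} {p e : ℕ → ℕ} (h : IsUSP G k p e) {l : ℕ} {q : ℕ → ℕ}
    (hV : ∀ i ≤ l, q i ∈ G.V) (hq : IsWalk G.m l q) (h0 : q 0 = p 0) (hl : q l = p k)
    (hlk : l ≤ k) : l = k ∧ ∀ i ≤ k, q i = p i := by
  obtain ⟨k', q', h1, h2, h3, h4, h5⟩ := walk_to_path G l q hV hq
  have h6 := h.2 k' q' _ h1 (h2.trans h0) (h3.trans hl)
  have hk : l = k := by omega
  have hinj : ∀ i ≤ l, ∀ j ≤ l, q i = q j → i = j := by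
    rcases h5 with h5 | h5
    · exact h5
    · omega
  have h7 := h.2 l q (fun _ => 0) ⟨hV, hinj, fun i hi => Nat.pos_of_ne_zero (hq i hi)⟩ h0 hl
  exact ⟨hk, (h7.2 hk).1⟩

theorem usp_mult {G : MGraph} {k : ℕ} {p e : ℕ → ℕ} (h : IsUSP G k p e) {i : ℕ} (hi : i < k) :
    G.m (p i) (p (i + 1)) = 1 := by
  have h1 := h.1.2.2 i hi
  by_contra hne
  -- another label
  obtain ⟨a, ha, hae⟩ : ∃ a, a < G.m (p i) (p (i + 1)) ∧ a ≠ e i := by
    by_cases h2 : e i = 0
    · exact ⟨1, by omega, by omega⟩
    · exact ⟨0, by omega, by omega⟩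
  have h2 : IsPath G k p (Function.update e i a) := by
    refine ⟨h.1.1, h.1.2.1, fun j hj => ?_⟩
    by_cases hji : j = i
    · subst hji
      rw [Function.update_self]
      exact ha
    · rw [Function.update_of_ne hji]
      exact h.1.2.2 j hj
  have h3 := ((h.2 k p _ h2 rfl rfl).2 rfl).2 i hi
  rw [Function.update_self] at h3
  exact hae h3

/-- `x` is joined to `z` by a walk of length at most `l` -/
def Reach (G : MGraph) (z : ℕ) (l : ℕ) (x : ℕ) : Prop :=
  ∃ (n : ℕ) (q : ℕ → ℕ), n ≤ l ∧ (∀ i ≤ n, q i ∈ G.V) ∧ IsWalk G.m n q ∧ q 0 = x ∧ q n = z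

theorem Reach.mono {G : MGraph} {z l l' x : ℕ} (h : Reach G z l x) (hl : l ≤ l') :
    Reach G z l' x := by
  obtain ⟨n, q, h1, h2⟩ := h
  exact ⟨n, q, h1.trans hl, h2⟩

theorem Reach.cons {G : MGraph} {z l x y : ℕ} (h : Reach G z l y) (hxy : G.m x y ≠ 0) :
    Reach G z (l + 1) x := by
  obtain ⟨n, q, h1, h2, h3, h4, h5⟩ := h
  refine ⟨n + 1, fun i => if i = 0 then x else q (i - 1), by omega, ?_, ?_, by simp, ?_⟩
  · intro i hi
    change (if i = 0 then x else q (i - 1)) ∈ G.V
    split_ifs
    · exact G.supp x y hxy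
    · exact h2 _ (by omega)
  · intro i hi
    change G.m (if i = 0 then x else q (i - 1)) (if i + 1 = 0 then x else q (i + 1 - 1)) ≠ 0
    rw [if_neg (show ¬ i + 1 = 0 by omega), Nat.add_sub_cancel]
    split_ifs with h6
    · rw [h6, h4]; exact hxy
    · have := h3 (i - 1) (by omega)
      rwa [show i - 1 + 1 = i by omega] at this
  · change (if n + 1 = 0 then x else q (n + 1 - 1)) = z
    rw [if_neg (by omega), Nat.add_sub_cancel]
    exact h5

open Classical in
/-- truncated distance to `z` -/
noncomputable def hd (G : MGraph) (z K x : ℕ) : ℕ :=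
  if h : ∃ l, l ≤ K ∧ Reach G z l x then Nat.find h else K

theorem hd_le {G : MGraph} {z K x : ℕ} : hd G z K x ≤ K := by
  classical
  unfold hd
  split_ifs with h
  · exact (Nat.find_spec h).1
  · exact le_rfl

theorem hd_le_of_reach {G : MGraph} {z K x l : ℕ} (h : Reach G z l x) : hd G z K x ≤ l := by
  classical
  by_cases hl : l ≤ K
  · unfold hd
    rw [dif_pos ⟨l, hl, h⟩]
    exact Nat.find_min' _ ⟨hl, h⟩
  · exact hd_le.trans (by omega)

theorem reach_of_hd_lt {G : MGraph} {z K x : ℕ} (h : hd G z K x < K) :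
    Reach G z (hd G z K x) x := by
  classical
  unfold hd at h ⊢
  split_ifs at h ⊢ with h1
  · exact (Nat.find_spec h1).2
  · exact absurd h (lt_irrefl _)

theorem hd_lip {G : MGraph} {z K x y : ℕ} (hxy : G.m x y ≠ 0) :
    hd G z K x ≤ hd G z K y + 1 := by
  by_cases h : hd G z K y < K
  · exact hd_le_of_reach ((reach_of_hd_lt h).cons hxy)
  · have := hd_le (G := G) (z := z) (K := K) (x := x)
    omega

/-- A unique shortest path has a certificate. -/
theorem cert_of_usp {G : MGraph} {k : ℕ} {p e : ℕ → ℕ} (h : IsUSP G k p e) :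
    ∃ (S : Finset ℕ) (g : ℕ → ℤ), Cert G.V G.m S g ∧ S.card = k + 1 := by
  classical
  let g : ℕ → ℤ := fun x => (k : ℤ) - hd G (p k) (k + 1) x
  have hwalkp : ∀ i < k, G.m (p i) (p (i + 1)) ≠ 0 := fun i hi => by rw [usp_mult h hi]; omega
  -- joining the beginning of the path with a walk to the end
  have hjoin : ∀ i ≤ k, ∀ x l, G.m (p i) x ≠ 0 → Reach G (p k) l x → i + 1 + l ≤ k →
      ∃ j ≤ k, x = p j := by
    rintro i hi x l hx ⟨n, q, h1, h2, h3, h4, h5⟩ hl
    let r : ℕ → ℕ := fun a => if a ≤ i then p a else q (a - (i + 1))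
    have hrV : ∀ a ≤ i + 1 + n, r a ∈ G.V := by
      intro a ha
      simp only [r]
      split_ifs
      · exact h.1.1 a (by omega)
      · exact h2 _ (by omega)
    have hrW : IsWalk G.m (i + 1 + n) r := by
      intro a ha
      simp only [r]
      by_cases h6 : a + 1 ≤ i
      · rw [if_pos (by omega), if_pos h6]
        exact hwalkp a (by omega)
      · rw [if_neg h6]
        by_cases h7 : a ≤ i
        · rw [if_pos h7, show a + 1 - (i + 1) = 0 by omega, h4, show a = i by omega]
          exact hx
        · rw [if_neg h7, show a + 1 - (i + 1) = a - (i + 1) + 1 by omega]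
          exact h3 _ (by omega)
    have hr := usp_walk h hrV hrW (by simp only [r]; rw [if_pos (Nat.zero_le _)])
      (by simp only [r]; rw [if_neg (by omega), show i + 1 + n - (i + 1) = n by omega]; exact h5)
      (by omega)
    refine ⟨i + 1, by omega, ?_⟩
    have := hr.2 (i + 1) (by omega)
    simp only [r] at this
    rw [if_neg (by omega), Nat.sub_self, h4] at this
    exact this
  -- the distance on the path
  have hreach : ∀ i ≤ k, Reach G (p k) (k - i) (p i) := by
    intro i hi
    refine ⟨k - i, fun a => p (i + a), le_rfl, fun a ha => h.1.1 _ (by omega), ?_, rfl, ?_⟩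
    · intro a ha
      exact hwalkp (i + a) (by omega)
    · change p (i + (k - i)) = p k
      rw [show i + (k - i) = k by omega]
  have hval : ∀ i ≤ k, g (p i) = i := by
    intro i hi
    have h1 : hd G (p k) (k + 1) (p i) ≤ k - i := hd_le_of_reach (hreach i hi)
    have h2 : k - i ≤ hd G (p k) (k + 1) (p i) := by
      by_contra hc
      push Not at hc
      obtain ⟨n, q, a1, a2, a3, a4, a5⟩ := reach_of_hd_lt (G := G) (z := p k) (K := k + 1)
        (x := p i) (by omega)
      let r : ℕ → ℕ := fun a => if a ≤ i then p a else q (a - i)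
      have hrV : ∀ a ≤ i + n, r a ∈ G.V := by
        intro a ha
        simp only [r]
        split_ifs
        · exact h.1.1 a (by omega)
        · exact a2 _ (by omega)
      have hrW : IsWalk G.m (i + n) r := by
        intro a ha
        simp only [r]
        by_cases h6 : a + 1 ≤ i
        · rw [if_pos (by omega), if_pos h6]
          exact hwalkp a (by omega)
        · rw [if_neg h6]
          by_cases h7 : a ≤ i
          · rw [if_pos h7, show a = i by omega, show i + 1 - i = 0 + 1 by omega, ← a4]
            exact a3 0 (by omega)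
          · rw [if_neg h7, show a + 1 - i = a - i + 1 by omega]
            exact a3 _ (by omega)
      have hr := usp_walk h hrV hrW (by simp only [r]; rw [if_pos (Nat.zero_le _)])
        (by
          simp only [r]
          by_cases h8 : n = 0
          · rw [if_pos (by omega), h8, Nat.add_zero, ← a4, ← a5, h8]
          · rw [if_neg (by omega), show i + n - i = n by omega]; exact a5)
        (by omega)
      omega
    change (k : ℤ) - hd G (p k) (k + 1) (p i) = i
    omega
  let S : Finset ℕ := (Finset.range (k + 1)).image p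
  have hS : ∀ x, x ∈ S ↔ ∃ i ≤ k, x = p i := by
    intro x
    simp only [S, Finset.mem_image, Finset.mem_range]
    constructor
    · rintro ⟨i, hi, rfl⟩
      exact ⟨i, by omega, rfl⟩
    · rintro ⟨i, hi, rfl⟩
      exact ⟨i, by omega, rfl⟩
  refine ⟨S, g, ⟨?_, ?_, ?_, ?_, ?_, ?_⟩, ?_⟩
  · intro x hx
    obtain ⟨i, hi, rfl⟩ := (hS x).1 hx
    exact h.1.1 i hi
  · intro x hx y hy hxy
    obtain ⟨i, hi, rfl⟩ := (hS x).1 hx
    obtain ⟨j, hj, rfl⟩ := (hS y).1 hy
    rw [hval i hi, hval j hj] at hxy
    have : i = j := by exact_mod_cast hxy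
    rw [this]
  · intro x hx y hy t h1 h2
    obtain ⟨i, hi, rfl⟩ := (hS x).1 hx
    obtain ⟨j, hj, rfl⟩ := (hS y).1 hy
    rw [hval i hi] at h1
    rw [hval j hj] at h2
    refine ⟨p t.toNat, (hS _).2 ⟨t.toNat, by omega, rfl⟩, ?_⟩
    rw [hval _ (by omega)]
    omega
  · intro x hx y hy hxy
    obtain ⟨i, hi, rfl⟩ := (hS x).1 hx
    obtain ⟨j, hj, rfl⟩ := (hS y).1 hy
    rw [hval i hi, hval j hj] at hxy
    have : j = i + 1 := by exact_mod_cast hxy
    rw [this]
    exact usp_mult h (by omega)
  · intro x y hxy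
    have := hd_lip (G := G) (z := p k) (K := k + 1) hxy
    simp only [g]
    omega
  · intro x y hx hy hxy
    obtain ⟨i, hi, rfl⟩ := (hS y).1 hy
    rw [hval i hi]
    by_contra hc
    push Not at hc
    have h1 : (i : ℤ) < (k : ℤ) - hd G (p k) (k + 1) x := hc
    have h2 : Reach G (p k) (hd G (p k) (k + 1) x) x := reach_of_hd_lt (by omega)
    obtain ⟨j, hj, hxj⟩ := hjoin i hi x _ (by rwa [G.symm]) h2 (by omega)
    exact hx ((hS x).2 ⟨j, hj, hxj⟩)
  · simp only [S]
    rw [Finset.card_image_of_injOn, Finset.card_range]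
    intro a ha b hb hab
    simp only [Finset.coe_range, Set.mem_Iio] at ha hb
    exact h.1.2.1 a (by omega) b (by omega) hab

/-- A certificate gives a unique shortest path. -/
theorem usp_of_cert {G : MGraph} {S : Finset ℕ} {g : ℕ → ℤ} (h : Cert G.V G.m S g) {k : ℕ}
    (hk : S.card = k + 1) : ∃ p e, IsUSP G k p e := by
  classical
  have lip2 : ∀ x y, G.m x y ≠ 0 → g x ≤ g y + 1 := fun x y hxy => h.lip y x (by rwa [G.symm])
  have hne : S.Nonempty := by
    rw [← Finset.card_pos]
    omega
  obtain ⟨x0, hx0, hmin⟩ := S.exists_min_image g hne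
  obtain ⟨x1, hx1, hmax⟩ := S.exists_max_image g hne
  -- the image is an interval
  have himg : S.image g = Finset.Icc (g x0) (g x1) := by
    ext t
    rw [Finset.mem_image, Finset.mem_Icc]
    constructor
    · rintro ⟨x, hx, rfl⟩
      exact ⟨hmin x hx, hmax x hx⟩
    · rintro ⟨h1, h2⟩
      obtain ⟨z, hz, hzt⟩ := h.conn x0 hx0 x1 hx1 t h1 h2
      exact ⟨z, hz, hzt⟩
  have hcard : g x1 = g x0 + k := by
    have h1 : (S.image g).card = S.card := Finset.card_image_of_injOn fun x hx y hy hxy =>
      h.inj x hx y hy hxy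
    rw [himg, Int.card_Icc, hk] at h1
    have := hmin x1 hx1
    omega
  have hex : ∀ i : ℕ, ∃ z, i ≤ k → z ∈ S ∧ g z = g x0 + i := by
    intro i
    by_cases hi : i ≤ k
    · obtain ⟨z, hz, hzt⟩ := h.conn x0 hx0 x1 hx1 (g x0 + i) (by omega) (by omega)
      exact ⟨z, fun _ => ⟨hz, hzt⟩⟩
    · exact ⟨0, fun h => absurd h hi⟩
  choose p hp using hex
  refine ⟨p, fun _ => 0, ⟨fun i hi => h.sub (hp i hi).1, ?_, ?_⟩, ?_⟩
  · intro i hi j hj hij
    have h1 := (hp i hi).2
    have h2 := (hp j hj).2
    rw [hij, h2] at h1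
    omega
  · intro i hi
    have h1 := hp i (by omega)
    have h2 := hp (i + 1) (by omega)
    rw [h.edge _ h1.1 _ h2.1 (by rw [h1.2, h2.2]; push_cast; ring)]
    exact one_pos
  · intro l q e' hq h0 hl
    have hq' : ∀ i < l, G.m (q i) (q (i + 1)) ≠ 0 := fun i hi => by
      have := hq.2.2 i hi
      omega
    have hq0 : g (q 0) = g x0 := by
      rw [h0, (hp 0 (by omega)).2]
      simp
    have hql : g (q l) = g x0 + k := by
      rw [hl, (hp k le_rfl).2]
    have hq0S : q 0 ∈ S := by rw [h0]; exact (hp 0 (by omega)).1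
    -- lower bound
    have hlow : ∀ i, i ≤ l → g x0 + k ≤ g (q (l - i)) + i := by
      intro i
      induction i with
      | zero =>
        intro _
        rw [Nat.sub_zero, hql]
        simp
      | succ i ih =>
        intro hi
        have h1 := ih (by omega)
        have h2 := h.lip (q (l - (i + 1))) (q (l - (i + 1) + 1)) (hq' _ (by omega))
        rw [show l - (i + 1) + 1 = l - i by omega] at h2
        push_cast
        omega
    -- upper bound
    have hup : ∀ i, i ≤ l → (q i ∈ S → g (q i) ≤ g x0 + i) ∧ (q i ∉ S → g (q i) + 1 ≤ g x0 + i) := by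
      intro i
      induction i with
      | zero =>
        intro _
        refine ⟨fun _ => by rw [hq0]; simp, fun h => absurd hq0S h⟩
      | succ i ih =>
        intro hi
        have h1 := ih (by omega)
        have h2 := hq' i (by omega)
        have h3 := h.lip _ _ h2
        by_cases h4 : q i ∈ S
        · have h5 := h1.1 h4
          refine ⟨fun _ => by push_cast; omega, fun h6 => ?_⟩
          have h7 := h.off _ _ h6 h4 (by rwa [G.symm])
          push_cast
          omega
        · have h5 := h1.2 h4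
          constructor
          · intro _
            push_cast
            omega
          · intro _
            push_cast
            omega
    have hkl : k ≤ l := by
      have h1 := hup l le_rfl
      have h2 : q l ∈ S := by rw [hl]; exact (hp k le_rfl).1
      have h3 := h1.1 h2
      omega
    refine ⟨hkl, fun hlk => ?_⟩
    subst hlk
    have hmem : ∀ i ≤ l, q i ∈ S ∧ g (q i) = g x0 + i := by
      intro i hi
      have h1 := hup i hi
      have h2 := hlow (l - i) (by omega)
      rw [show l - (l - i) = i by omega] at h2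
      have h3 : ((l - i : ℕ) : ℤ) = (l : ℤ) - i := by omega
      rw [h3] at h2
      have h4 : q i ∈ S := by
        by_contra hc
        have := h1.2 hc
        omega
      have h5 := h1.1 h4
      exact ⟨h4, by omega⟩
    have heq : ∀ i ≤ l, q i = p i := by
      intro i hi
      have h1 := hmem i hi
      have h2 := hp i hi
      exact h.inj _ h1.1 _ h2.1 (by rw [h1.2, h2.2])
    refine ⟨heq, fun i hi => ?_⟩
    have h1 := hq.2.2 i hi
    rw [heq i (by omega), heq (i + 1) (by omega)] at h1
    have h2 := hp i (by omega)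
    have h3 := hp (i + 1) (by omega)
    rw [h.edge _ h2.1 _ h3.1 (by rw [h2.2, h3.2]; push_cast; ring)] at h1
    change e' i = 0
    omega

end Pool.Agent.X224.SP
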